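import Pool.Agent.W811.LW.Stm

set_option autoImplicit false

namespace Pool.Agent.W764.LW

open Filter Topology
open Pool.Agent.W811.LW

theorem last (h : FINC) (hl : LSEQ) : LAST := by
  intro ε hε
  obtain ⟨L, K, hL1, hL2, hL3⟩ := hl ε hε
  obtain ⟨ξ, ζ, D, c4, c, hD, hc4, hc, H⟩ := h L K hL1 hL2
  have hT0 : Tendsto (fun k => c4 * D ^ (L k)) atTop atTop :=
    Tendsto.const_mul_atTop hc4 ((tendsto_pow_atTop_atTop_of_one_lt hD).comp hL1.tendsto_atTop)
  obtain ⟨k0, hk0⟩ := eventually_atTop.1 (hT0.eventually_ge_atTop 2)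
  have hQ2 : ∀ k, 2 ≤ c4 * D ^ (L (k + k0)) := fun k => hk0 _ (Nat.le_add_left _ _)
  refine ⟨ξ, ζ, fun k => c4 * D ^ (L (k + k0)), ?_, ?_, c * c4, mul_pos hc hc4, ?_⟩
  · exact hT0.comp (tendsto_add_atTop_nat k0)
  · have hs : 0 < Real.log D := Real.log_pos hD
    have hlog : ∀ k, Real.log (c4 * D ^ (L k)) = Real.log c4 + L k * Real.log D := by
      intro k
      rw [Real.log_mul hc4.ne' (by positivity), Real.log_pow]
    have hℓ : Tendsto (fun k => ((L (k + k0) : ℕ) : ℝ)) atTop atTop :=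
      tendsto_natCast_atTop_atTop.comp (hL1.tendsto_atTop.comp (tendsto_add_atTop_nat k0))
    have hr : Tendsto (fun k => ((L (k + k0 + 1) : ℕ) : ℝ) / (L (k + k0) : ℝ)) atTop
        (𝓝 (1 + ε)) := hL3.comp (tendsto_add_atTop_nat k0)
    have hm : Tendsto (fun k => Real.log c4 / ((L (k + k0) : ℕ) : ℝ)) atTop (𝓝 0) :=
      tendsto_const_nhds.div_atTop hℓ
    have hmain : Tendsto (fun k => (Real.log c4 / ((L (k + k0) : ℕ) : ℝ) +
        ((L (k + k0 + 1) : ℕ) : ℝ) / (L (k + k0) : ℝ) * Real.log D) /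
        (Real.log c4 / ((L (k + k0) : ℕ) : ℝ) + Real.log D)) atTop
        (𝓝 ((0 + (1 + ε) * Real.log D) / (0 + Real.log D))) := by
      apply Tendsto.div
      · exact hm.add (hr.mul_const _)
      · exact hm.add_const _
      · rw [zero_add]
        exact hs.ne'
    have hlim : (0 + (1 + ε) * Real.log D) / (0 + Real.log D) = 1 + ε := by
      rw [zero_add, zero_add, mul_div_assoc, div_self hs.ne', mul_one]
    rw [hlim] at hmain
    refine hmain.congr' ?_
    filter_upwards [hℓ.eventually_gt_atTop 0] with k hk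
    have e1 : k + 1 + k0 = k + k0 + 1 := by omega
    rw [hlog, e1, hlog]
    have e2 : Real.log c4 / ((L (k + k0) : ℕ) : ℝ) +
        ((L (k + k0 + 1) : ℕ) : ℝ) / (L (k + k0) : ℝ) * Real.log D =
        (Real.log c4 + (L (k + k0 + 1) : ℝ) * Real.log D) / (L (k + k0) : ℝ) := by
      field_simp
    have e3 : Real.log c4 / ((L (k + k0) : ℕ) : ℝ) + Real.log D =
        (Real.log c4 + (L (k + k0) : ℝ) * Real.log D) / (L (k + k0) : ℝ) := by
      field_simp
    rw [e2, e3, div_div_div_cancel_right₀ hk.ne']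
  · intro k
    have hQ0 : 0 < c4 * D ^ (L (k + k0)) := by linarith [hQ2 k]
    have hne : Nonempty {q : ℕ // 0 < q ∧ (q : ℝ) ≤ c4 * D ^ (L (k + k0))} :=
      ⟨⟨1, one_pos, by
        have := hQ2 k
        push_cast
        linarith⟩⟩
    have key : c * c4 / (c4 * D ^ (L (k + k0))) ≤
        ⨅ q : {q : ℕ // 0 < q ∧ (q : ℝ) ≤ c4 * D ^ (L (k + k0))},
        |((q.1 : ℝ) * ξ) - (round ((q.1 : ℝ) * ξ) : ℝ)| *
        |((q.1 : ℝ) * ζ) - (round ((q.1 : ℝ) * ζ) : ℝ)| := by
      apply le_ciInf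
      rintro ⟨q, hq1, hq2⟩
      rw [div_le_iff₀ hQ0]
      have h1 := H (k + k0) (q : ℤ) (round ((q : ℝ) * ξ)) (round ((q : ℝ) * ζ))
        (by exact_mod_cast hq1) (by rw [Int.cast_natCast]; exact hq2)
        (by
          rw [Int.cast_natCast]
          exact (abs_sub_round _).trans (by norm_num))
      rw [Int.cast_natCast] at h1
      have h2 := mul_le_mul_of_nonneg_right h1 hc4.le
      refine h2.trans (le_of_eq ?_)
      simp only
      ring
    calc c * c4 = c4 * D ^ (L (k + k0)) * (c * c4 / (c4 * D ^ (L (k + k0)))) := by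
          rw [mul_div_cancel₀ _ hQ0.ne']
      _ ≤ _ := mul_le_mul_of_nonneg_left key hQ0.le

end Pool.Agent.W764.LW
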